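import Mathlib

/-!
# Serre vanishing over a Noetherian base, elementary form

`A c` (`c : ℕ`) are subspaces of a field `L`, closed under multiplication, generated over `A 0` by
finitely many elements `X i` of `A 1`. The chase: the graded pieces of `H^0_m(A/I)`, `H^1_m(A/I)` and
`H^2_m(A)` vanish in large degree.
-/

set_option autoImplicit false

open Filter

namespace Pool.Agent.H11.UG

variable {K L ι : Type} [Field K] [Field L] [Algebra K L] [Fintype ι]

/-- Eventually `x ^ N * a` is in degree `c + d N` of the family `J`. -/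
def Ev (J : ℕ → Submodule K L) (d : ℕ) (x : L) (c : ℕ) (a : L) : Prop :=
  ∀ᶠ N in atTop, x ^ N * a ∈ J (c + d * N)

/-- `I` is a graded ideal of `A`. -/
structure GI (A : ℕ → Submodule K L) (I : ℕ → Submodule K L) : Prop where
  le : ∀ c, I c ≤ A c
  mul : ∀ a c x y, x ∈ A a → y ∈ I c → x * y ∈ I (a + c)

/-- `A` is a graded algebra. -/
structure GB (A : ℕ → Submodule K L) : Prop where
  one : (1 : L) ∈ A 0
  mul : ∀ a c x y, x ∈ A a → y ∈ A c → x * y ∈ A (a + c)

/-- The graded algebra `A` generated by the elements `X i` of degree one over `A 0`. -/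
structure GA (A : ℕ → Submodule K L) (X : ι → L) : Prop extends GB A where
  mem : ∀ i, X i ∈ A 1
  ne : ∀ i, X i ≠ 0
  gen : ∀ c, ∀ a ∈ A (c + 1), ∃ v : ι → L, (∀ i, v i ∈ A c) ∧ a = ∑ i, X i * v i
  noeth : ∀ I, GI A I → ∃ (τ : Type) (T : Finset τ) (d : τ → ℕ) (g : τ → L),
    (∀ s ∈ T, g s ∈ I (d s)) ∧ ∀ c, ∀ b ∈ I c, ∃ u : τ → L,
      (∀ s ∈ T, (∃ e, e + d s = c ∧ u s ∈ A e) ∨ u s = 0) ∧ b = ∑ s ∈ T, u s * g s
  nzd : ∀ I, GI A I → (∀ c, ∀ a ∈ A c, (∀ i, Ev I 1 (X i) c a) → a ∈ I c) →
    ∃ y ∈ A 1, ∀ c, ∀ a ∈ A c, y * a ∈ I (c + 1) → a ∈ I c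

section basic

variable {J : ℕ → Submodule K L} {d c : ℕ} {x a b : L}

theorem Ev.add (ha : Ev J d x c a) (hb : Ev J d x c b) : Ev J d x c (a + b) := by
  filter_upwards [ha, hb] with N h1 h2
  rw [mul_add]
  exact (J _).add_mem h1 h2

theorem Ev.sub (ha : Ev J d x c a) (hb : Ev J d x c b) : Ev J d x c (a - b) := by
  filter_upwards [ha, hb] with N h1 h2
  rw [mul_sub]
  exact (J _).sub_mem h1 h2

theorem Ev.smul (r : K) (ha : Ev J d x c a) : Ev J d x c (r • a) := by
  filter_upwards [ha] with N h1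
  rw [mul_smul_comm]
  exact (J _).smul_mem r h1

theorem Ev.zero : Ev J d x c (0 : L) := by
  refine Eventually.of_forall fun N => ?_
  rw [mul_zero]
  exact (J _).zero_mem

theorem Ev.sum {α : Type} (s : Finset α) (f : α → L) (h : ∀ i ∈ s, Ev J d x c (f i)) :
    Ev J d x c (∑ i ∈ s, f i) := by
  classical
  induction s using Finset.induction_on with
  | empty => simpa using Ev.zero
  | insert i s hi ih =>
    rw [Finset.sum_insert hi]
    exact (h i (Finset.mem_insert_self i s)).add (ih fun j hj => h j (Finset.mem_insert_of_mem hj))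

end basic

section alg

variable {A : ℕ → Submodule K L} {X : ι → L}

theorem GB.pow (H : GB A) {d : ℕ} {x : L} (hx : x ∈ A d) (N : ℕ) : x ^ N ∈ A (d * N) := by
  induction N with
  | zero => simpa using H.one
  | succ N ih =>
    have h := H.mul _ _ _ _ ih hx
    rw [pow_succ, Nat.mul_succ]
    exact h

theorem GA.pow (H : GA A X) {d : ℕ} {x : L} (hx : x ∈ A d) (N : ℕ) : x ^ N ∈ A (d * N) :=
  H.toGB.pow hx N

theorem GI.self (H : GA A X) : GI A A := ⟨fun _ => le_rfl, H.mul⟩

theorem GB.ev_of_exists (H : GB A) {I : ℕ → Submodule K L} (hI : GI A I) {d c : ℕ} {x a : L}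
    (hx : x ∈ A d) (h : ∃ N, x ^ N * a ∈ I (c + d * N)) : Ev I d x c a := by
  obtain ⟨N, hN⟩ := h
  filter_upwards [eventually_ge_atTop N] with M hM
  obtain ⟨k, rfl⟩ := Nat.exists_eq_add_of_le hM
  have h := hI.mul _ _ _ _ (H.pow hx k) hN
  rw [show d * k + (c + d * N) = c + d * (N + k) by ring] at h
  rw [show x ^ (N + k) * a = x ^ k * (x ^ N * a) by ring]
  exact h

theorem ev_of_exists (H : GA A X) {I : ℕ → Submodule K L} (hI : GI A I) {d c : ℕ} {x a : L}
    (hx : x ∈ A d) (h : ∃ N, x ^ N * a ∈ I (c + d * N)) : Ev I d x c a :=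
  H.toGB.ev_of_exists hI hx h

theorem ev_of_mem (H : GA A X) {I : ℕ → Submodule K L} (hI : GI A I) {d c : ℕ} {x a : L}
    (hx : x ∈ A d) (h : a ∈ I c) : Ev I d x c a :=
  ev_of_exists H hI hx ⟨0, by simpa using h⟩

theorem ev_mono {I J : ℕ → Submodule K L} (h : ∀ c, I c ≤ J c) {d c : ℕ} {x a : L}
    (ha : Ev I d x c a) : Ev J d x c a := by
  filter_upwards [ha] with N hN
  exact h _ hN

theorem ev_mul {I : ℕ → Submodule K L} (hI : GI A I) {d c e : ℕ} {x a b : L}
    (hb : b ∈ A e) (ha : Ev I d x c a) : Ev I d x (e + c) (b * a) := by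
  filter_upwards [ha] with N hN
  have h := hI.mul _ _ _ _ hb hN
  rw [show x ^ N * (b * a) = b * (x ^ N * a) by ring, add_assoc]
  exact h

/-- shifting: `x ^ M * a` in degree `c + d M` -/
theorem ev_shift (H : GA A X) {I : ℕ → Submodule K L} (hI : GI A I) {d c M : ℕ} {x a : L}
    (hx : x ∈ A d) (ha : Ev I d x (c + d * M) (x ^ M * a)) : Ev I d x c a := by
  obtain ⟨N, hN⟩ := ha.exists
  refine ev_of_exists H hI hx ⟨N + M, ?_⟩
  rw [show x ^ (N + M) * a = x ^ N * (x ^ M * a) by ring,
    show c + d * (N + M) = c + d * M + d * N by ring]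
  exact hN

theorem gen_pow (H : GA A X) : ∀ (n : ℕ) (m : ι → ℕ), ∑ i, m i = n → ∀ e, n + 1 ≤ e → ∀ a ∈ A e,
    ∃ v : ι → L, (∀ i, v i ∈ A (e - m i)) ∧ a = ∑ i, X i ^ m i * v i := by
  classical
  intro n
  induction n with
  | zero =>
    intro m hm e he a ha
    by_cases hι : Nonempty ι
    · obtain ⟨i⟩ := hι
      have h0 : m i = 0 := by
        have := Finset.sum_eq_zero_iff.1 hm i (Finset.mem_univ i)
        exact this
      refine ⟨Pi.single i a, fun j => ?_, ?_⟩
      · by_cases hj : j = i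
        · subst hj
          rw [Pi.single_eq_same, h0]
          exact ha
        · rw [Pi.single_eq_of_ne hj]
          exact Submodule.zero_mem _
      · rw [Finset.sum_eq_single i]
        · rw [Pi.single_eq_same, h0, pow_zero, one_mul]
        · intro j _ hj
          rw [Pi.single_eq_of_ne hj, mul_zero]
        · intro h
          exact absurd (Finset.mem_univ i) h
    · obtain ⟨e', rfl⟩ : ∃ e', e = e' + 1 := ⟨e - 1, by omega⟩
      obtain ⟨v, -, hv⟩ := H.gen e' a ha
      have : IsEmpty ι := not_nonempty_iff.1 hι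
      refine ⟨0, fun j => (IsEmpty.false j).elim, ?_⟩
      rw [hv]
      simp
  | succ n ih =>
    intro m hm e he a ha
    by_cases h0 : ∃ i, m i = 0
    · obtain ⟨i, h0⟩ := h0
      refine ⟨Pi.single i a, fun j => ?_, ?_⟩
      · by_cases hj : j = i
        · subst hj
          rw [Pi.single_eq_same, h0]
          exact ha
        · rw [Pi.single_eq_of_ne hj]
          exact Submodule.zero_mem _
      · rw [Finset.sum_eq_single i]
        · rw [Pi.single_eq_same, h0, pow_zero, one_mul]
        · intro j _ hj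
          rw [Pi.single_eq_of_ne hj, mul_zero]
        · intro h
          exact absurd (Finset.mem_univ i) h
    · push Not at h0
      obtain ⟨e', rfl⟩ : ∃ e', e = e' + 1 := ⟨e - 1, by omega⟩
      obtain ⟨v, hv, hva⟩ := H.gen e' a ha
      have key : ∀ i, ∃ w : ι → L, (∀ j, w j ∈ A (e' + 1 - m j)) ∧
          X i * v i = ∑ j, X j ^ m j * w j := by
        intro i
        have hs : ∑ j, Function.update m i (m i - 1) j = n := by
          have h1 := Finset.sum_update_of_mem (Finset.mem_univ i) m (m i - 1)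
          have h2 := Finset.add_sum_erase Finset.univ m (Finset.mem_univ i)
          rw [h1]
          have h3 : Finset.univ \ {i} = Finset.univ.erase i := by
            ext j; simp
          rw [h3]
          have h4 := h0 i
          omega
        obtain ⟨w, hw, hwv⟩ := ih (Function.update m i (m i - 1)) hs e' (by omega) (v i) (hv i)
        refine ⟨fun j => if j = i then w j else X i * w j, fun j => ?_, ?_⟩
        · by_cases hj : j = i
          · subst hj
            simp only [if_true]
            have h5 := hw j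
            rw [Function.update_self] at h5
            have h4 := h0 j
            rw [show e' + 1 - m j = e' - (m j - 1) by omega]
            exact h5
          · simp only [if_neg hj]
            have h5 := hw j
            rw [Function.update_of_ne hj] at h5
            have h6 := H.mul _ _ _ _ (H.mem i) h5
            have h7 : m j ≤ n := by
              have h8 : m j ≤ ∑ j, Function.update m i (m i - 1) j := by
                have h9 := Finset.single_le_sum (f := Function.update m i (m i - 1))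
                  (fun k _ => Nat.zero_le _) (Finset.mem_univ j)
                rw [Function.update_of_ne hj] at h9
                exact h9
              omega
            rw [show e' + 1 - m j = 1 + (e' - m j) by omega]
            exact h6
        · rw [hwv, Finset.mul_sum]
          refine Finset.sum_congr rfl fun j _ => ?_
          by_cases hj : j = i
          · subst hj
            have h4 := h0 j
            simp only [Function.update_self, if_true]
            rw [← mul_assoc, ← pow_succ', show m j - 1 + 1 = m j by omega]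
          · simp only [Function.update_of_ne hj, if_neg hj]
            ring
      choose w hw hwv using key
      refine ⟨fun j => ∑ i, w i j, fun j => Submodule.sum_mem _ fun i _ => hw i j, ?_⟩
      rw [hva]
      simp only [hwv, Finset.mul_sum]
      rw [Finset.sum_comm]

theorem gen_pow_const (H : GA A X) (N : ℕ) {e : ℕ} (he : Fintype.card ι * N + 1 ≤ e) {a : L}
    (ha : a ∈ A e) : ∃ v : ι → L, (∀ i, v i ∈ A (e - N)) ∧ a = ∑ i, X i ^ N * v i :=
  gen_pow H (Fintype.card ι * N) (fun _ => N) (by simp) e he a ha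

/-- the saturation of `I` -/
def sat (A : ℕ → Submodule K L) (X : ι → L) (I : ℕ → Submodule K L) (c : ℕ) : Submodule K L where
  carrier := {a | a ∈ A c ∧ ∀ i, Ev I 1 (X i) c a}
  add_mem' ha hb := ⟨(A c).add_mem ha.1 hb.1, fun i => (ha.2 i).add (hb.2 i)⟩
  zero_mem' := ⟨(A c).zero_mem, fun _ => Ev.zero⟩
  smul_mem' r _ ha := ⟨(A c).smul_mem r ha.1, fun i => (ha.2 i).smul r⟩

theorem sat_gi (H : GA A X) {I : ℕ → Submodule K L} (hI : GI A I) : GI A (sat A X I) where
  le _ _ ha := ha.1
  mul _ _ _ _ hx hy := ⟨H.mul _ _ _ _ hx hy.1, fun i => ev_mul hI hx (hy.2 i)⟩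

theorem le_sat (H : GA A X) {I : ℕ → Submodule K L} (hI : GI A I) (c : ℕ) :
    I c ≤ sat A X I c :=
  fun _ ha => ⟨hI.le c ha, fun i => ev_of_mem H hI (H.mem i) ha⟩

theorem ev_sat (H : GA A X) {I : ℕ → Submodule K L} (hI : GI A I) {c : ℕ} {a : L} {i : ι}
    (h : Ev (sat A X I) 1 (X i) c a) : Ev I 1 (X i) c a := by
  obtain ⟨N, hN⟩ := h.exists
  exact ev_shift H hI (H.mem i) (hN.2 i)

theorem sat_sat (H : GA A X) {I : ℕ → Submodule K L} (hI : GI A I) (c : ℕ) (a : L) (ha : a ∈ A c)
    (h : ∀ i, Ev (sat A X I) 1 (X i) c a) : a ∈ sat A X I c :=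
  ⟨ha, fun i => ev_sat H hI (h i)⟩

/-- `H^0_m(A/I)` vanishes in large degree. -/
theorem vanish0 (H : GA A X) {I : ℕ → Submodule K L} (hI : GI A I) :
    ∃ c0, ∀ c, c0 ≤ c → sat A X I c ≤ I c := by
  obtain ⟨τ, T, d, g, hT, hgen⟩ := H.noeth _ (sat_gi H hI)
  have h1 : ∀ᶠ N in atTop, ∀ s ∈ T, ∀ i, X i ^ N * g s ∈ I (d s + 1 * N) := by
    rw [Filter.eventually_all_finset]
    intro s hs
    rw [Filter.eventually_all]
    intro i
    exact (hT s hs).2 i
  obtain ⟨N, hN⟩ := h1.exists
  refine ⟨∑ s ∈ T, d s + (Fintype.card ι * N + N + 1), fun c hc b hb => ?_⟩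
  obtain ⟨u, hu, rfl⟩ := hgen c b hb
  refine Submodule.sum_mem _ fun s hs => ?_
  have h2 : d s ≤ ∑ s ∈ T, d s :=
    Finset.single_le_sum (f := d) (fun _ _ => Nat.zero_le _) hs
  rcases hu s hs with ⟨e, he, hue⟩ | h0
  · obtain ⟨v, hv, hva⟩ := gen_pow_const H N (e := e) (by omega) hue
    rw [hva, Finset.sum_mul]
    refine Submodule.sum_mem _ fun i _ => ?_
    have h3 := hI.mul _ _ _ _ (hv i) (hN s hs i)
    rw [show X i ^ N * v i * g s = v i * (X i ^ N * g s) by ring]
    rw [show c = e - N + (d s + 1 * N) by omega]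
    exact h3
  · rw [h0, zero_mul]
    exact Submodule.zero_mem _

/-- the multiples of `y` -/
noncomputable def mul1 (A : ℕ → Submodule K L) (y : L) (c : ℕ) : Submodule K L :=
  if c = 0 then ⊥ else (A (c - 1)).map (LinearMap.mulLeft K y)

theorem mem_mul1 {y : L} {c : ℕ} {v : L} (h : v ∈ A c) : y * v ∈ mul1 A y (c + 1) := by
  rw [mul1, if_neg (Nat.succ_ne_zero c), Nat.add_sub_cancel]
  exact ⟨v, h, rfl⟩

theorem of_mul1 {y : L} {c : ℕ} {b : L} (h : b ∈ mul1 A y (c + 1)) : ∃ v ∈ A c, b = y * v := by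
  rw [mul1, if_neg (Nat.succ_ne_zero c), Nat.add_sub_cancel] at h
  obtain ⟨v, hv, hvb⟩ := h
  exact ⟨v, hv, hvb.symm⟩

theorem mul1_gi (H : GA A X) {y : L} (hy : y ∈ A 1) : GI A (mul1 A y) where
  le c := by
    rcases Nat.eq_zero_or_pos c with rfl | hc
    · rw [mul1, if_pos rfl]
      exact bot_le
    · obtain ⟨e, rfl⟩ : ∃ e, c = e + 1 := ⟨c - 1, by omega⟩
      intro b hb
      obtain ⟨v, hv, rfl⟩ := of_mul1 hb
      have h := H.mul _ _ _ _ hy hv
      rw [add_comm e 1]
      exact h
  mul a c x b hx hb := by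
    rcases Nat.eq_zero_or_pos c with rfl | hc
    · rw [mul1, if_pos rfl, Submodule.mem_bot] at hb
      rw [hb, mul_zero]
      exact Submodule.zero_mem _
    · obtain ⟨e, rfl⟩ : ∃ e, c = e + 1 := ⟨c - 1, by omega⟩
      obtain ⟨v, hv, rfl⟩ := of_mul1 hb
      rw [mul_left_comm, ← add_assoc]
      exact mem_mul1 (H.mul _ _ _ _ hx hv)

theorem sup_gi (I J : ℕ → Submodule K L) (hI : GI A I) (hJ : GI A J) :
    GI A (fun c => I c ⊔ J c) where
  le c := sup_le (hI.le c) (hJ.le c)
  mul a c x b hx hb := by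
    obtain ⟨u, hu, v, hv, rfl⟩ := Submodule.mem_sup.1 hb
    rw [mul_add]
    exact Submodule.add_mem_sup (hI.mul _ _ _ _ hx hu) (hJ.mul _ _ _ _ hx hv)

/-- `H^1_m(A/I)` vanishes in large degree. -/
theorem vanish1 (H : GA A X) {I : ℕ → Submodule K L} (hI : GI A I) :
    ∃ c0, ∀ c, c0 ≤ c → ∀ s : ι → L, (∀ i, Ev A 1 (X i) c (s i)) →
      (∀ i j, Ev I 2 (X i * X j) c (s i - s j)) →
      ∃ b ∈ A c, ∀ i, Ev I 1 (X i) c (s i - b) := by
  have hS := sat_gi H hI
  obtain ⟨y, hy, hyn⟩ := H.nzd (sat A X I) hS (sat_sat H hI)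
  obtain ⟨c0, hc0⟩ := vanish0 H (sup_gi _ _ hS (mul1_gi H hy))
  refine ⟨c0, fun c hc s hs hss => ?_⟩
  -- descending induction
  have down : ∀ M, (∃ a ∈ A (c + M), ∀ j, Ev (sat A X I) 1 (X j) (c + M) (y ^ M * s j - a)) →
      ∃ b ∈ A c, ∀ j, Ev (sat A X I) 1 (X j) c (s j - b) := by
    intro M
    induction M with
    | zero =>
      rintro ⟨a, ha, h⟩
      refine ⟨a, ha, fun j => ?_⟩
      have h1 := h j
      rw [pow_zero, one_mul] at h1
      exact h1
    | succ M ih =>
      rintro ⟨a, ha, h⟩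
      have haQ : a ∈ sat A X (fun c => sat A X I c ⊔ mul1 A y c) (c + (M + 1)) := by
        refine ⟨ha, fun j => ?_⟩
        have h1 : Ev (fun c => sat A X I c ⊔ mul1 A y c) 1 (X j) (c + (M + 1))
            (y ^ (M + 1) * s j) := by
          filter_upwards [hs j] with N hN
          refine Submodule.mem_sup_right ?_
          have h2 := H.mul _ _ _ _ (H.pow hy M) hN
          have h3 := mem_mul1 (y := y) h2
          rw [show 1 * M + (c + 1 * N) + 1 = c + (M + 1) + 1 * N by ring] at h3
          rw [show X j ^ N * (y ^ (M + 1) * s j) = y * (y ^ M * (X j ^ N * s j)) by ring]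
          exact h3
        have h2 : Ev (fun c => sat A X I c ⊔ mul1 A y c) 1 (X j) (c + (M + 1))
            (y ^ (M + 1) * s j - a) := ev_mono (fun c => le_sup_left) (h j)
        have h3 := h1.sub h2
        rw [sub_sub_cancel] at h3
        exact h3
      have haQ' := hc0 _ (by omega) haQ
      obtain ⟨u, hu, w, hw, rfl⟩ := Submodule.mem_sup.1 haQ'
      obtain ⟨v, hv, rfl⟩ := of_mul1 (c := c + M) hw
      refine ih ⟨v, hv, fun j => ?_⟩
      have hu' : Ev (sat A X I) 1 (X j) (c + (M + 1)) u := ev_of_mem H hS (H.mem j) hu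
      have hsA : Ev A 1 (X j) (M + c) (y ^ M * s j) := by
        have h4 := ev_mul (GI.self H) (H.pow hy M) (hs j)
        rw [one_mul] at h4
        exact h4
      have hvA : Ev A 1 (X j) (c + M) v := ev_of_mem H (GI.self H) (H.mem j) hv
      filter_upwards [h j, hu', hsA, hvA] with N h1 h2 h3 h4
      refine hyn _ _ ?_ ?_
      · rw [mul_sub]
        rw [add_comm M c] at h3
        exact Submodule.sub_mem _ h3 h4
      · have h5 := Submodule.add_mem _ h1 h2
        rw [show c + M + 1 * N + 1 = c + (M + 1) + 1 * N by ring]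
        have h6 : y * (X j ^ N * (y ^ M * s j - v)) =
            X j ^ N * (y ^ (M + 1) * s j - (u + y * v)) + X j ^ N * u := by ring
        rw [h6]
        exact h5
  -- the start
  have h1 : ∀ᶠ N in atTop, ∀ i, X i ^ N * s i ∈ A (c + 1 * N) := by
    rw [Filter.eventually_all]
    exact hs
  have h2 : ∀ᶠ N in atTop, ∀ i j, (X i * X j) ^ N * (s i - s j) ∈ I (c + 2 * N) := by
    rw [Filter.eventually_all]
    intro i
    rw [Filter.eventually_all]
    exact hss i
  obtain ⟨N, hN1, hN2⟩ := (h1.and h2).exists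
  set M := Fintype.card ι * N + N + 1 with hM
  have hyM := H.pow hy M
  rw [one_mul] at hyM
  obtain ⟨q, hq, hyq⟩ := gen_pow_const H N (e := M) (by omega) hyM
  obtain ⟨b, hb, hbj⟩ := down M ⟨∑ i, q i * (X i ^ N * s i), by
      refine Submodule.sum_mem _ fun i _ => ?_
      have h3 := H.mul _ _ _ _ (hq i) (hN1 i)
      rw [show M - N + (c + 1 * N) = c + M by omega] at h3
      exact h3, fun j => by
      refine ev_mono (le_sat H hI) ?_
      refine ev_of_exists H hI (H.mem j) ⟨N, ?_⟩
      have h4 : X j ^ N * (y ^ M * s j - ∑ i, q i * (X i ^ N * s i)) =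
          ∑ i, q i * ((X j * X i) ^ N * (s j - s i)) := by
        rw [hyq, Finset.sum_mul, ← Finset.sum_sub_distrib, Finset.mul_sum]
        refine Finset.sum_congr rfl fun i _ => ?_
        ring
      rw [h4]
      refine Submodule.sum_mem _ fun i _ => ?_
      have h5 := hI.mul _ _ _ _ (hq i) (hN2 j i)
      rw [show M - N + (c + 2 * N) = c + M + 1 * N by omega] at h5
      exact h5⟩
  exact ⟨b, hb, fun j => ev_sat H hI (hbj j)⟩

/-- **Serre vanishing**: `H^1` of the sheaves of degree `c` vanishes for all large `c`. -/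
theorem serre (H : GA A X) : ∃ c0, ∀ c, c0 ≤ c → ∀ f : ι → ι → L,
    (∀ i j k, f i j + f j k = f i k) → (∀ i j, Ev A 2 (X i * X j) c (f i j)) →
    ∃ h : ι → L, (∀ i, Ev A 1 (X i) c (h i)) ∧ ∀ i j, f i j = h i - h j := by
  by_cases hι : Nonempty ι
  swap
  · have : IsEmpty ι := not_nonempty_iff.1 hι
    exact ⟨0, fun c _ f _ _ => ⟨0, fun i => (IsEmpty.false i).elim,
      fun i => (IsEmpty.false i).elim⟩⟩
  obtain ⟨r⟩ := hι
  obtain ⟨c0, hc0⟩ := vanish1 H (mul1_gi H (H.mem r))
  refine ⟨c0, fun c hc f hf hfA => ?_⟩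
  have down : ∀ M, (∃ g : ι → L, (∀ i, Ev A 1 (X i) (c + M) (g i)) ∧
      ∀ i j, X r ^ M * f i j = g i - g j) →
      ∃ h : ι → L, (∀ i, Ev A 1 (X i) c (h i)) ∧ ∀ i j, f i j = h i - h j := by
    intro M
    induction M with
    | zero =>
      rintro ⟨g, hg, hgf⟩
      refine ⟨g, hg, fun i j => ?_⟩
      have h1 := hgf i j
      rw [pow_zero, one_mul] at h1
      exact h1
    | succ M ih =>
      rintro ⟨g, hg, hgf⟩
      obtain ⟨b, hb, hbi⟩ := hc0 (c + (M + 1)) (by omega) g hg (fun i j => by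
        rw [← hgf i j]
        filter_upwards [hfA i j] with N hN
        have h2 := H.mul _ _ _ _ (H.pow (H.mem r) M) hN
        have h3 := mem_mul1 (y := X r) h2
        rw [show 1 * M + (c + 2 * N) + 1 = c + (M + 1) + 2 * N by ring] at h3
        rw [show (X i * X j) ^ N * (X r ^ (M + 1) * f i j) =
          X r * (X r ^ M * ((X i * X j) ^ N * f i j)) by ring]
        exact h3)
      refine ih ⟨fun i => (g i - b) / X r, fun i => ?_, fun i j => ?_⟩
      · filter_upwards [hbi i] with N hN
        rw [show c + (M + 1) + 1 * N = c + M + 1 * N + 1 by ring] at hN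
        obtain ⟨v, hv, hvb⟩ := of_mul1 hN
        have h4 : X i ^ N * ((g i - b) / X r) = v := by
          rw [mul_div_assoc', hvb, mul_div_cancel_left₀ _ (H.ne r)]
        rw [h4]
        exact hv
      · have h5 := hgf i j
        have h6 := H.ne r
        show X r ^ M * f i j = (g i - b) / X r - (g j - b) / X r
        rw [← sub_div, eq_div_iff h6, sub_sub_sub_cancel_right, ← h5]
        ring
  have h1 : ∀ᶠ N in atTop, ∀ i, (X i * X r) ^ N * f i r ∈ A (c + 2 * N) := by
    rw [Filter.eventually_all]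
    intro i
    exact hfA i r
  obtain ⟨N, hN⟩ := h1.exists
  refine down N ⟨fun i => X r ^ N * f i r, fun i => ?_, fun i j => ?_⟩
  · refine ev_of_exists H (GI.self H) (H.mem i) ⟨N, ?_⟩
    have h2 := hN i
    rw [show X i ^ N * (X r ^ N * f i r) = (X i * X r) ^ N * f i r by ring,
      show c + N + 1 * N = c + 2 * N by ring]
    exact h2
  · have h3 := hf i r j
    have h4 := hf r r r
    have h5 := hf r j r
    have h6 : f r j = - f j r := by
      have h7 := hf r j r
      have h8 : f r r = 0 := by linear_combination h4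
      linear_combination h7 + h8
    show X r ^ N * f i j = X r ^ N * f i r - X r ^ N * f j r
    rw [← h3, h6]
    ring

end alg

end Pool.Agent.H11.UG
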