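import Pool.Agent.H11.UG.Serre

/-!
# Serre vanishing for a homogeneous prime ideal of `A[X_1, .., X_r]`, `A` Noetherian
-/

set_option autoImplicit false

open MvPolynomial Filter

namespace Pool.Agent.H11.UG

attribute [local instance] MvPolynomial.gradedAlgebra in
theorem comp_mul {A : Type} [CommRing A] {r : ℕ} (p t : MvPolynomial (Fin r) A) {e : ℕ} (n : ℕ)
    (ht : t.IsHomogeneous e) :
    homogeneousComponent n (p * t) = if e ≤ n then homogeneousComponent (n - e) p * t else 0 := by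
  have h := DirectSum.coe_decompose_mul_of_right_mem (𝒜 := homogeneousSubmodule (Fin r) A) (a := p) n
    ((mem_homogeneousSubmodule e t).2 ht)
  have h1 : ∀ (q : MvPolynomial (Fin r) A) (i : ℕ),
    (DirectSum.decompose (homogeneousSubmodule (Fin r) A) q i : MvPolynomial (Fin r) A) =
      homogeneousComponent i q := fun q i => decomposition.decompose'_apply q i
  rw [h1, h1] at h
  exact h

section pres

variable {K A L : Type} [Field K] [CommRing A] [Algebra K A] [Field L] [Algebra K L] {r : ℕ}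
  (φ : MvPolynomial (Fin r) A →ₐ[K] L)

/-- The image of the forms of degree `c`. -/
noncomputable def im (c : ℕ) : Submodule K L :=
  ((homogeneousSubmodule (Fin r) A c).restrictScalars K).map φ.toLinearMap

theorem mem_im {c : ℕ} {a : L} :
    a ∈ im φ c ↔ ∃ P : MvPolynomial (Fin r) A, P.IsHomogeneous c ∧ φ P = a := Iff.rfl

theorem im_gb : GB (im φ) where
  one := ⟨1, isHomogeneous_one _ _, map_one φ⟩
  mul a c x y hx hy := by
    obtain ⟨P, hP, rfl⟩ := (mem_im φ).1 hx
    obtain ⟨Q, hQ, rfl⟩ := (mem_im φ).1 hy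
    exact ⟨P * Q, hP.mul hQ, map_mul φ P Q⟩

/-- The ideal of the polynomials whose components are mapped into `I`. -/
noncomputable def idl (I : ℕ → Submodule K L) : Ideal (MvPolynomial (Fin r) A) :=
  Ideal.span {p | ∃ c, p.IsHomogeneous c ∧ φ p ∈ I c}

variable {φ}

theorem idl_fin [IsNoetherianRing A] (I : ℕ → Submodule K L) :
    ∃ (T : Finset (MvPolynomial (Fin r) A)) (e : MvPolynomial (Fin r) A → ℕ),
      (∀ t ∈ T, t.IsHomogeneous (e t) ∧ φ t ∈ I (e t)) ∧
      idl φ I = Ideal.span (T : Set (MvPolynomial (Fin r) A)) := by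
  classical
  obtain ⟨T, hT, hT2⟩ := (Submodule.fg_span_iff_fg_span_finset_subset
    {p : MvPolynomial (Fin r) A | ∃ c, p.IsHomogeneous c ∧ φ p ∈ I c}).1
      (IsNoetherian.noetherian (idl φ I))
  refine ⟨T, fun t => if h : ∃ c, t.IsHomogeneous c ∧ φ t ∈ I c then h.choose else 0,
    fun t ht => ?_, hT2⟩
  have h : ∃ c, t.IsHomogeneous c ∧ φ t ∈ I c := hT ht
  simp only [dif_pos h]
  exact h.choose_spec

theorem idl_comp {I : ℕ → Submodule K L} {T : Finset (MvPolynomial (Fin r) A)}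
    {e : MvPolynomial (Fin r) A → ℕ} (hT : ∀ t ∈ T, t.IsHomogeneous (e t) ∧ φ t ∈ I (e t))
    (hI : idl φ I = Ideal.span (T : Set (MvPolynomial (Fin r) A)))
    {p : MvPolynomial (Fin r) A} (hp : p ∈ idl φ I) (c : ℕ) :
    ∃ v : MvPolynomial (Fin r) A → MvPolynomial (Fin r) A,
      (∀ t, (e t ≤ c ∧ (v t).IsHomogeneous (c - e t)) ∨ v t = 0) ∧
      homogeneousComponent c p = ∑ t ∈ T, v t * t := by
  rw [hI] at hp
  obtain ⟨f, -, rfl⟩ := Submodule.mem_span_finset.1 hp
  refine ⟨fun t => if e t ≤ c then homogeneousComponent (c - e t) (f t) else 0, fun t => ?_, ?_⟩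
  · by_cases h : e t ≤ c
    · left
      refine ⟨h, ?_⟩
      simp only [if_pos h]
      exact homogeneousComponent_isHomogeneous _ _
    · right
      simp only [if_neg h]
  · rw [map_sum]
    refine Finset.sum_congr rfl fun t ht => ?_
    rw [smul_eq_mul, comp_mul _ _ _ (hT t ht).1]
    show _ = (if e t ≤ c then homogeneousComponent (c - e t) (f t) else 0) * t
    rw [ite_mul, zero_mul]

theorem comp_mem_idl [IsNoetherianRing A] {I : ℕ → Submodule K L} {p : MvPolynomial (Fin r) A}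
    (hp : p ∈ idl φ I) (c : ℕ) : homogeneousComponent c p ∈ idl φ I := by
  obtain ⟨T, e, hT, hI⟩ := idl_fin (φ := φ) I
  obtain ⟨v, -, hv⟩ := idl_comp hT hI hp c
  rw [hv, hI]
  exact Ideal.sum_mem _ fun t ht => Ideal.mul_mem_left _ _ (Ideal.subset_span ht)

theorem of_idl [IsNoetherianRing A] {I : ℕ → Submodule K L} (hG : GI (im φ) I)
    {p : MvPolynomial (Fin r) A} {c : ℕ} (hc : p.IsHomogeneous c) (hp : p ∈ idl φ I) :
    φ p ∈ I c := by
  obtain ⟨T, e, hT, hI⟩ := idl_fin (φ := φ) I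
  obtain ⟨v, hv, hvp⟩ := idl_comp hT hI hp c
  rw [homogeneousComponent_of_mem ((mem_homogeneousSubmodule c p).2 hc), if_pos rfl] at hvp
  rw [hvp, map_sum]
  refine Submodule.sum_mem _ fun t ht => ?_
  rw [map_mul]
  rcases hv t with ⟨h1, h2⟩ | h0
  · have h3 := hG.mul _ _ _ _ ((mem_im φ).2 ⟨_, h2, rfl⟩) (hT t ht).2
    rw [Nat.sub_add_cancel h1] at h3
    exact h3
  · rw [h0, map_zero, zero_mul]
    exact Submodule.zero_mem _

theorem im_noeth [IsNoetherianRing A] (I : ℕ → Submodule K L) (hG : GI (im φ) I) :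
    ∃ (τ : Type) (T : Finset τ) (d : τ → ℕ) (g : τ → L),
    (∀ s ∈ T, g s ∈ I (d s)) ∧ ∀ c, ∀ b ∈ I c, ∃ u : τ → L,
      (∀ s ∈ T, (∃ e, e + d s = c ∧ u s ∈ im φ e) ∨ u s = 0) ∧ b = ∑ s ∈ T, u s * g s := by
  obtain ⟨T, e, hT, hI⟩ := idl_fin (φ := φ) I
  refine ⟨MvPolynomial (Fin r) A, T, e, φ, fun t ht => (hT t ht).2, fun c b hb => ?_⟩
  obtain ⟨p, hp, rfl⟩ := (mem_im φ).1 (hG.le c hb)
  have hpI : p ∈ idl φ I := Ideal.subset_span ⟨c, hp, hb⟩
  obtain ⟨v, hv, hvp⟩ := idl_comp hT hI hpI c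
  rw [homogeneousComponent_of_mem ((mem_homogeneousSubmodule c p).2 hp), if_pos rfl] at hvp
  refine ⟨fun t => φ (v t), fun t _ => ?_, ?_⟩
  · rcases hv t with ⟨h1, h2⟩ | h0
    · exact Or.inl ⟨c - e t, Nat.sub_add_cancel h1, (mem_im φ).2 ⟨_, h2, rfl⟩⟩
    · right
      show φ (v t) = 0
      rw [h0, map_zero]
  · conv_lhs => rw [hvp]
    rw [map_sum]
    exact Finset.sum_congr rfl fun t _ => map_mul φ _ _

theorem im_nzd [Infinite K] [IsNoetherianRing A] (I : ℕ → Submodule K L) (hG : GI (im φ) I)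
    (hs : ∀ c, ∀ a ∈ im φ c, (∀ i, Ev I 1 (φ (X i)) c a) → a ∈ I c) :
    ∃ y ∈ im φ 1, ∀ c, ∀ a ∈ im φ c, y * a ∈ I (c + 1) → a ∈ I c := by
  classical
  have hfin := associatedPrimes.finite (MvPolynomial (Fin r) A)
    (MvPolynomial (Fin r) A ⧸ idl φ I)
  have hmiss : ∀ p ∈ associatedPrimes (MvPolynomial (Fin r) A)
      (MvPolynomial (Fin r) A ⧸ idl φ I), ∃ i, (X i : MvPolynomial (Fin r) A) ∉ p := by
    intro p hp
    by_contra hcon
    push Not at hcon
    obtain ⟨hpp, x, hx⟩ := isAssociatedPrime_iff.1 ((AssociatedPrimes.mem_iff).1 hp)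
    obtain ⟨m, rfl⟩ := Submodule.Quotient.mk_surjective _ x
    have hann : ∀ q : MvPolynomial (Fin r) A, q ∈ p ↔ q * m ∈ idl φ I := by
      intro q
      rw [hx, Submodule.mem_colon_singleton, Submodule.mem_bot, ← Submodule.Quotient.mk_smul,
        Submodule.Quotient.mk_eq_zero, smul_eq_mul]
    have h1 : m ∉ idl φ I := fun h => hpp.ne_top
      ((Ideal.eq_top_iff_one p).2 ((hann 1).2 (by rw [one_mul]; exact h)))
    have h2 : ∃ c, homogeneousComponent c m ∉ idl φ I := by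
      by_contra h
      push Not at h
      apply h1
      rw [← sum_homogeneousComponent m]
      exact Ideal.sum_mem _ fun c _ => h c
    obtain ⟨c, hc⟩ := h2
    apply hc
    refine Ideal.subset_span ⟨c, homogeneousComponent_isHomogeneous c m, ?_⟩
    refine hs c _ ((mem_im φ).2 ⟨_, homogeneousComponent_isHomogeneous c m, rfl⟩) fun i => ?_
    have h3 : m * X i ∈ idl φ I := by
      rw [mul_comm]
      exact (hann _).1 (hcon i)
    have h4 := comp_mem_idl h3 (c + 1)
    rw [comp_mul m (X i) (c + 1) (isHomogeneous_X A i), if_pos (by omega),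
      Nat.add_sub_cancel] at h4
    have h5 := of_idl hG ((homogeneousComponent_isHomogeneous c m).mul (isHomogeneous_X A i)) h4
    refine (im_gb φ).ev_of_exists hG ((mem_im φ).2 ⟨_, isHomogeneous_X A i, rfl⟩) ⟨1, ?_⟩
    rw [pow_one, mul_one, ← map_mul, mul_comm (X i)]
    exact h5
  -- the linear form
  let Y : (Fin r → K) →ₗ[K] MvPolynomial (Fin r) A :=
    Fintype.linearCombination K (fun i => (X i : MvPolynomial (Fin r) A))
  have hY : ∀ v, Y v = ∑ i, v i • (X i : MvPolynomial (Fin r) A) := fun v => rfl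
  let V : Ideal (MvPolynomial (Fin r) A) → Submodule K (Fin r → K) := fun p =>
    (p.restrictScalars K).comap Y
  have htop : (⊤ : Submodule K (Fin r → K)) ∉ hfin.toFinset.image V := by
    intro h
    obtain ⟨p, hp, hpV⟩ := Finset.mem_image.1 h
    obtain ⟨i, hi⟩ := hmiss p (hfin.mem_toFinset.1 hp)
    have h1 : (Pi.single i 1 : Fin r → K) ∈ V p := by rw [hpV]; exact Submodule.mem_top
    have h2 : Y (Pi.single i 1) ∈ p := h1
    rw [hY, Finset.sum_eq_single i (fun j _ hj => by rw [Pi.single_eq_of_ne hj, zero_smul])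
      (fun h => absurd (Finset.mem_univ i) h), Pi.single_eq_same, one_smul] at h2
    exact hi h2
  have hne := Subspace.biUnion_ne_univ_of_top_notMem htop
  obtain ⟨v, hv⟩ := (Set.ne_univ_iff_exists_notMem _).1 hne
  have hreg : IsSMulRegular (MvPolynomial (Fin r) A ⧸ idl φ I) (Y v) := by
    by_contra hcon
    have h1 : Y v ∈ ⋃ p ∈ associatedPrimes (MvPolynomial (Fin r) A)
        (MvPolynomial (Fin r) A ⧸ idl φ I), (p : Set (MvPolynomial (Fin r) A)) := by
      rw [biUnion_associatedPrimes_eq_compl_regular]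
      exact hcon
    obtain ⟨p, hp, hvp⟩ := Set.mem_iUnion₂.1 h1
    apply hv
    refine Set.mem_iUnion₂.2 ⟨V p, Finset.mem_image.2 ⟨p, hfin.mem_toFinset.2 hp, rfl⟩, ?_⟩
    exact hvp
  have hYh : (Y v).IsHomogeneous 1 := by
    rw [hY]
    refine IsHomogeneous.sum _ _ _ fun i _ => ?_
    have h1 : v i • (X i : MvPolynomial (Fin r) A) = C (algebraMap K A (v i)) * X i := by
      rw [← smul_eq_C_mul, algebraMap_smul]
    rw [h1]
    have h2 := (isHomogeneous_C (Fin r) (algebraMap K A (v i))).mul (isHomogeneous_X A i)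
    rw [zero_add] at h2
    exact h2
  refine ⟨φ (Y v), (mem_im φ).2 ⟨_, hYh, rfl⟩, fun c a ha hya => ?_⟩
  obtain ⟨p, hp, rfl⟩ := (mem_im φ).1 ha
  rw [← map_mul] at hya
  have h1 : Y v * p ∈ idl φ I := Ideal.subset_span ⟨c + 1, by
    have h := hYh.mul hp
    rw [add_comm 1 c] at h
    exact h, hya⟩
  have h2 := (isSMulRegular_quotient_iff_mem_of_smul_mem (N := idl φ I) (r := Y v)).1 hreg p h1
  exact of_idl hG hp h2

theorem im_gen (c : ℕ) (a : L) (ha : a ∈ im φ (c + 1)) :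
    ∃ v : Fin r → L, (∀ i, v i ∈ im φ c) ∧ a = ∑ i, φ (X i) * v i := by
  classical
  obtain ⟨P, hP, rfl⟩ := (mem_im φ).1 ha
  have key : ∀ b ∈ P.support, ∃ v : Fin r → L, (∀ i, v i ∈ im φ c) ∧
      φ (monomial b (coeff b P)) = ∑ i, φ (X i) * v i := by
    intro b hb
    have hdeg : b.degree = c + 1 := by
      have h := hP (mem_support_iff.1 hb)
      rw [Finsupp.degree_eq_weight_one]
      exact h
    have hne : b ≠ 0 := by
      rintro rfl
      simp at hdeg
    obtain ⟨i, hi⟩ := Finsupp.ne_iff.1 hne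
    refine ⟨Pi.single i (φ (monomial (b - Finsupp.single i 1) (coeff b P))), fun j => ?_, ?_⟩
    · by_cases hj : j = i
      · subst hj
        rw [Pi.single_eq_same]
        refine (mem_im φ).2 ⟨_, ?_, rfl⟩
        apply isHomogeneous_monomial
        have h2 : Finsupp.single j 1 ≤ b := by
          rw [Finsupp.single_le_iff]
          exact Nat.one_le_iff_ne_zero.2 hi
        have h3 : (b - Finsupp.single j 1) + Finsupp.single j 1 = b := tsub_add_cancel_of_le h2
        have h4 := congrArg Finsupp.degree h3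
        rw [map_add, Finsupp.degree_single, hdeg] at h4
        omega
      · rw [Pi.single_eq_of_ne hj]
        exact Submodule.zero_mem _
    · rw [Finset.sum_eq_single i (fun j _ hj => by rw [Pi.single_eq_of_ne hj, mul_zero])
        (fun h => absurd (Finset.mem_univ i) h), Pi.single_eq_same, ← map_mul]
      congr 1
      have h2 : Finsupp.single i 1 ≤ b := by
        rw [Finsupp.single_le_iff]
        exact Nat.one_le_iff_ne_zero.2 hi
      rw [X, monomial_mul, one_mul, add_tsub_cancel_of_le h2]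
  choose! v hv hvP using key
  refine ⟨fun i => ∑ b ∈ P.support, v b i, fun i => Submodule.sum_mem _ fun b hb => hv b hb i, ?_⟩
  conv_lhs => rw [P.as_sum, map_sum]
  rw [Finset.sum_congr rfl hvP, Finset.sum_comm]
  exact Finset.sum_congr rfl fun i _ => (Finset.mul_sum _ _ _).symm

theorem im_ga [Infinite K] [IsNoetherianRing A] (hX : ∀ i, φ (X i) ≠ 0) :
    GA (im φ) (fun i => φ (X i)) where
  toGB := im_gb φ
  mem i := (mem_im φ).2 ⟨_, isHomogeneous_X A i, rfl⟩
  ne := hX
  gen c a ha := im_gen c a ha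
  noeth := im_noeth
  nzd := im_nzd

end pres

/-- **Serre vanishing**, for a homomorphism `φ` from a polynomial ring to a field with
homogeneous kernel. -/
theorem serre_hom {K A L : Type} [Field K] [Infinite K] [CommRing A] [Algebra K A]
    [IsNoetherianRing A] [Field L] [Algebra K L] {r : ℕ} (I : Ideal (MvPolynomial (Fin r) A))
    (φ : MvPolynomial (Fin r) A →ₐ[K] L)
    (hφ : ∀ P : MvPolynomial (Fin r) A, φ P = 0 ↔ P ∈ I)
    (hX : ∀ i, (X i : MvPolynomial (Fin r) A) ∉ I) : ∃ e₀ : ℕ, ∀ e ≥ e₀, ∀ (t : ℕ)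
    (P : Fin r → Fin r → MvPolynomial (Fin r) A), (∀ i j, (P i j).IsHomogeneous (e + 2 * t)) →
    (∀ i j, P i j + P j i ∈ I) → (∀ i, P i i ∈ I) →
    (∀ i j k, X k ^ t * P i j - X j ^ t * P i k + X i ^ t * P j k ∈ I) →
    ∃ (u : ℕ) (Q : Fin r → MvPolynomial (Fin r) A), (∀ i, (Q i).IsHomogeneous (e + t + u)) ∧
      ∀ i j, (X i * X j) ^ u * P i j - (X j ^ (t + u) * Q i - X i ^ (t + u) * Q j) ∈ I := by
  have hXφ : ∀ i, φ (X i) ≠ 0 := fun i h => hX i ((hφ _).1 h)
  obtain ⟨e₀, he₀⟩ := serre (im_ga (φ := φ) hXφ)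
  refine ⟨e₀, fun e he t P hP hPa hPd hPc => ?_⟩
  -- the cocycle
  let f : Fin r → Fin r → L := fun i j => φ (P i j) / (φ (X i) * φ (X j)) ^ t
  have hanti : ∀ i j, φ (P j i) = - φ (P i j) := by
    intro i j
    have h := (hφ _).2 (hPa i j)
    rw [map_add] at h
    linear_combination h
  have hco : ∀ i j k, φ (X k) ^ t * φ (P i j) - φ (X j) ^ t * φ (P i k) +
      φ (X i) ^ t * φ (P j k) = 0 := by
    intro i j k
    have h := (hφ _).2 (hPc i j k)
    simpa only [map_add, map_sub, map_mul, map_pow] using h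
  obtain ⟨h, hh, hfh⟩ := he₀ e he f (fun i j k => by
      show φ (P i j) / (φ (X i) * φ (X j)) ^ t + φ (P j k) / (φ (X j) * φ (X k)) ^ t =
        φ (P i k) / (φ (X i) * φ (X k)) ^ t
      have h1 := hco i j k
      have hi := pow_ne_zero t (hXφ i)
      have hj := pow_ne_zero t (hXφ j)
      have hk := pow_ne_zero t (hXφ k)
      rw [mul_pow, mul_pow, mul_pow]
      field_simp
      linear_combination h1) (fun i j => by
      refine (im_gb φ).ev_of_exists (GI.self (im_ga (φ := φ) hXφ))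
        ((im_gb φ).mul 1 1 _ _ ((mem_im φ).2 ⟨_, isHomogeneous_X A i, rfl⟩)
          ((mem_im φ).2 ⟨_, isHomogeneous_X A j, rfl⟩)) ⟨t, ?_⟩
      have h1 : (φ (X i) * φ (X j)) ^ t * f i j = φ (P i j) :=
        mul_div_cancel₀ _ (pow_ne_zero t (mul_ne_zero (hXφ i) (hXφ j)))
      rw [h1]
      exact (mem_im φ).2 ⟨_, hP i j, rfl⟩)
  have h2 : ∀ᶠ N in atTop, ∀ i, φ (X i) ^ N * h i ∈ im φ (e + 1 * N) := by
    rw [Filter.eventually_all]
    exact hh
  obtain ⟨N, hN1, hN2⟩ := (h2.and (eventually_ge_atTop t)).exists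
  obtain ⟨u, rfl⟩ := Nat.exists_eq_add_of_le hN2
  choose Q hQ hQh using fun i => (mem_im φ).1 (hN1 i)
  refine ⟨u, Q, fun i => ?_, fun i j => ?_⟩
  · have h3 := hQ i
    rw [show e + 1 * (t + u) = e + t + u by ring] at h3
    exact h3
  · rw [← hφ]
    simp only [map_sub, map_mul, map_pow]
    rw [hQh i, hQh j]
    have h3 : φ (P i j) = (φ (X i) * φ (X j)) ^ t * (h i - h j) := by
      rw [← hfh i j]
      exact (mul_div_cancel₀ _ (pow_ne_zero t (mul_ne_zero (hXφ i) (hXφ j)))).symm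
    rw [h3]
    ring

/-- **Serre vanishing** for a homogeneous prime ideal over a Noetherian algebra over an infinite
field. -/
theorem serre_prime {K A : Type} [Field K] [Infinite K] [CommRing A] [Algebra K A]
    [IsNoetherianRing A] {r : ℕ} (I : Ideal (MvPolynomial (Fin r) A)) (hp : I.IsPrime)
    (hX : ∀ i, (X i : MvPolynomial (Fin r) A) ∉ I)
    (_hI : ∀ P ∈ I, ∀ e, homogeneousComponent e P ∈ I) : ∃ e₀ : ℕ, ∀ e ≥ e₀, ∀ (t : ℕ)
    (P : Fin r → Fin r → MvPolynomial (Fin r) A), (∀ i j, (P i j).IsHomogeneous (e + 2 * t)) →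
    (∀ i j, P i j + P j i ∈ I) → (∀ i, P i i ∈ I) →
    (∀ i j k, X k ^ t * P i j - X j ^ t * P i k + X i ^ t * P j k ∈ I) →
    ∃ (u : ℕ) (Q : Fin r → MvPolynomial (Fin r) A), (∀ i, (Q i).IsHomogeneous (e + t + u)) ∧
      ∀ i j, (X i * X j) ^ u * P i j - (X j ^ (t + u) * Q i - X i ^ (t + u) * Q j) ∈ I := by
  have : I.IsPrime := hp
  have hφ : ∀ P : MvPolynomial (Fin r) A,
      ((IsScalarTower.toAlgHom K (MvPolynomial (Fin r) A ⧸ I)
        (FractionRing (MvPolynomial (Fin r) A ⧸ I))).comp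
      ((Ideal.Quotient.mkₐ (MvPolynomial (Fin r) A) I).restrictScalars K)) P = 0 ↔ P ∈ I := by
    intro P
    have h1 : ((IsScalarTower.toAlgHom K (MvPolynomial (Fin r) A ⧸ I)
        (FractionRing (MvPolynomial (Fin r) A ⧸ I))).comp
      ((Ideal.Quotient.mkₐ (MvPolynomial (Fin r) A) I).restrictScalars K)) P =
        algebraMap (MvPolynomial (Fin r) A ⧸ I) (FractionRing (MvPolynomial (Fin r) A ⧸ I))
          (Ideal.Quotient.mk I P) := rfl
    rw [h1, FaithfulSMul.algebraMap_eq_zero_iff, Ideal.Quotient.eq_zero_iff_mem]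
  exact serre_hom I _ hφ hX

end Pool.Agent.H11.UG
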